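import Pool.Agent.PWG.Van
import Pool.Agent.PWG.All

/-!
# MP_26af1b_gt : Putman-Wieland for representations with eigenlines of subgroups of small index

Let `K` be a finite branched cover of a surface of genus `g ≥ 1` with marked points, `F = π₁`, `N` the normal
core of `K`.  Suppose that every irreducible complex representation `ρ` of the deck group `F/N` of the Galois
closure with a nonzero `K`-fixed vector has a line which is stable under some subgroup of `F` of index at most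
`exp (c g)`, or that `ρ(F)` is metabelian, `g ≥ 9`, or that the centre of `ρ(F)` contains a subgroup of cost at
most `g - 1`, or an abelian normal subgroup of `ρ(F)` contains one of cost at most `g - 2`.  Then every nonzero
rational cohomology class of degree one of the closed cover has an infinite orbit under the mapping class group.
-/

namespace Pool.Agent.Results.MP_26af1b_gt.Eigenlines

open Pool.Agent.PW Pool.Agent.PWI Pool.Agent.PWS Pool.Agent.PWL Pool.Agent.PWY Pool.Agent.PWK Pool.Agent.PWG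

private lemma exp_bound {C g x : ℕ} (hx : 2 ≤ x)
    (h : (x : ℝ) ≤ Real.exp (Real.log 2 / (2 * C + 2) * g)) :
    C * (Nat.log 2 x + 1) + 2 ≤ g := by
  have hl : 1 ≤ Nat.log 2 x := Nat.log_pos (by norm_num) hx
  have hp : 2 ^ Nat.log 2 x ≤ x := Nat.pow_log_le_self 2 (by omega)
  have hp' : ((2 : ℝ) ^ Nat.log 2 x) ≤ x := by exact_mod_cast hp
  have h2 : (0 : ℝ) < Real.log 2 := Real.log_pos (by norm_num)
  have h3 : (Nat.log 2 x : ℝ) * Real.log 2 ≤ Real.log 2 / (2 * C + 2) * g := by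
    have h4 := Real.log_le_log (by positivity) (hp'.trans h)
    rwa [Real.log_pow, Real.log_exp] at h4
  have hC : (0 : ℝ) < 2 * C + 2 := by positivity
  have h5 : (Nat.log 2 x : ℝ) * (2 * C + 2) ≤ g := by
    have h6 : Real.log 2 * ((Nat.log 2 x : ℝ) * (2 * C + 2)) ≤ Real.log 2 * g := by
      have h7 := mul_le_mul_of_nonneg_right h3 hC.le
      have h8 : Real.log 2 / (2 * C + 2) * g * (2 * C + 2) = Real.log 2 * g := by
        field_simp
      rw [h8] at h7
      linarith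
    exact le_of_mul_le_mul_left h6 h2
  have h6 : Nat.log 2 x * (2 * C + 2) ≤ g := by exact_mod_cast h5
  nlinarith

/-- A line of `V` is stable under a subgroup `H` of `Γ` of finite index at most `e`. -/
def Eigenline {Γ V : Type} [Group Γ] [AddCommGroup V] [Module ℂ V] (ρ : Representation ℂ Γ V)
    (e : ℝ) : Prop :=
  ∃ H : Subgroup Γ, H.index ≠ 0 ∧ (H.index : ℝ) ≤ e ∧
    ∃ v : V, v ≠ 0 ∧ ∀ x ∈ H, ∃ z : ℂ, ρ x v = z • v

/-- `Q` is metabelian and `9 ≤ g`, or the centre of `Q` contains a subgroup of cost at most `g - 1`, or an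
abelian normal subgroup of `Q` contains a subgroup of cost at most `g - 2`. -/
def Light (C g : ℕ) (Q : Type) [Group Q] : Prop :=
  (9 ≤ g ∧ derivedSeries Q 2 = ⊥) ∨
  (∃ (s : ℕ) (D : Subgroup Q), s + 1 ≤ g ∧ D ≤ Subgroup.center Q ∧ Cost9 C Q s D) ∨
  ∃ (B : Subgroup Q) (_ : B.Normal), (∀ x ∈ B, ∀ y ∈ B, x * y = y * x) ∧
    ∃ (s : ℕ) (D : Subgroup Q), s + 2 ≤ g ∧ D ≤ B ∧ Cost9 C Q s D

theorem result : ∃ (c : ℝ) (C : ℕ), 0 < c ∧ ∀ (g n : ℕ), 1 ≤ g →
    ∀ (K : Subgroup (F g n)) [K.FiniteIndex], bdry g n ∈ K.normalCore →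
    (∀ (V : Type) [AddCommGroup V] [Module ℂ V] [FiniteDimensional ℂ V]
      (ρ : Representation ℂ (F g n) V), (∀ x ∈ K.normalCore, ρ x = 1) →
      (∀ U : Submodule ℂ V, (∀ w, ∀ v ∈ U, ρ w v ∈ U) → U = ⊥ ∨ U = ⊤) →
      (∃ v : V, v ≠ 0 ∧ ∀ k ∈ K, ρ k v = v) →
      Eigenline ρ (Real.exp (c * g)) ∨
      ∃ (M : Subgroup (F g n)) (_ : M.Normal), (∀ x, x ∈ M ↔ ρ x = 1) ∧ Light C g (F g n ⧸ M)) →
    ∀ f : K → ℚ, IsClass K f → f ≠ 0 → (orbit K f).Infinite := by
  classical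
  obtain ⟨C₀, -, hC₀⟩ := Pool.Agent.PWS.all_Cor
  have hC0 : 340 ≤ max C₀ 340 := le_max_right _ _
  have hC : ∀ (p : ℕ) [Fact p.Prime] (ρ : F (max C₀ 340) 0 →* SL p), Dead ρ :=
    fun p _ ρ => dead_mono (le_max_left _ _) (hC₀ p) ρ
  refine ⟨Real.log 2 / (2 * ((max C₀ 340 : ℕ) : ℝ) + 2), max C₀ 340, by positivity,
    fun g n hg K _ hR hQ f hf h0 => ?_⟩
  generalize hCC : max C₀ 340 = C at hC0 hC hQ
  have hvan : ∀ M : Subgroup (F g n), Pk C M → K.normalCore ≤ M → M.Normal →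
      ∀ f1 : F g n → ℚ, Fine M f1 → ∀ x ∈ M, f1 x = 0 := by
    intro M hP hle hM
    exact van_pk all_Hnd hC0 hC M hP (Subgroup.finiteIndex_of_le hle) (hle hR)
  -- the largest index
  have hexp1 : (1 : ℝ) ≤ Real.exp (Real.log 2 / (2 * (C : ℝ) + 2) * g) := by
    apply Real.one_le_exp
    have : (0 : ℝ) < Real.log 2 := Real.log_pos (by norm_num)
    positivity
  by_cases hd : 2 ≤ ⌊Real.exp (Real.log 2 / (2 * (C : ℝ) + 2) * g)⌋₊
  · have hfl : ((⌊Real.exp (Real.log 2 / (2 * (C : ℝ) + 2) * g)⌋₊ : ℕ) : ℝ) ≤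
        Real.exp (Real.log 2 / (2 * (C : ℝ) + 2) * g) := Nat.floor_le (by positivity)
    have hb := exp_bound hd hfl
    obtain ⟨h, rfl⟩ : ∃ h, g = h + 3 := by
      refine ⟨g - 3, ?_⟩
      have : 340 * 1 ≤ C * (Nat.log 2 ⌊Real.exp (Real.log 2 / (2 * (C : ℝ) + 2) * g)⌋₊ + 1) :=
        Nat.mul_le_mul hC0 (by omega)
      omega
    refine all_Lin (h + 3) n ⌊Real.exp (Real.log 2 / (2 * (C : ℝ) + 2) * ((h + 3 : ℕ) : ℝ))⌋₊ K (Pk C) hR
      ?_ hvan ?_ f hf h0
    · intro V _ _ _ ρ h1 h2 h3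
      rcases hQ V ρ h1 h2 h3 with ⟨H, a1, a2, a3⟩ | ⟨M, hM, a1, a2⟩
      · left
        refine ⟨H, a1, Nat.le_floor ?_, a3⟩
        rw [← hCC] at a2 ⊢
        exact a2
      · right
        exact ⟨M, ⟨hM, a2⟩, a1⟩
    · intro A _ _ _ H₀ fA h1 h2 h3 x hx hfx
      refine all_Ker H₀ fA h1 ?_ h3 x hx hfx
      have h4 := Nat.log_mono_right (b := 2) h2
      have h5 : 340 * (Nat.log 2 H₀.index + 1) ≤
          C * (Nat.log 2 ⌊Real.exp (Real.log 2 / (2 * (C : ℝ) + 2) * ((h + 3 : ℕ) : ℝ))⌋₊ + 1) :=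
        Nat.mul_le_mul hC0 (Nat.add_le_add_right h4 1)
      omega
  · refine all_Lin g n 0 K (Pk C) hR ?_ hvan (fun H₀ fA h1 h2 => absurd (Nat.le_zero.1 h2) h1) f hf h0
    intro V _ _ _ ρ h1 h2 h3
    right
    rcases hQ V ρ h1 h2 h3 with ⟨H, a1, a2, v, hv, a3⟩ | ⟨M, hM, a1, a2⟩
    · have e1 : H.index = 1 := by
        have h4 : H.index ≤ ⌊Real.exp (Real.log 2 / (2 * (C : ℝ) + 2) * g)⌋₊ := by
          apply Nat.le_floor
          rw [← hCC] at a2 ⊢
          exact a2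
        omega
      have eH : H = ⊤ := Subgroup.index_eq_one.1 e1
      subst eH
      let U : Submodule ℂ V := ℂ ∙ v
      have hU : U = ⊤ := by
        rcases h2 U (fun w u hu => by
          obtain ⟨t, rfl⟩ := Submodule.mem_span_singleton.1 hu
          obtain ⟨z, hz⟩ := a3 w trivial
          rw [map_smul, hz]
          exact Submodule.smul_mem _ _ (Submodule.smul_mem _ _ (Submodule.mem_span_singleton_self v)))
          with h | h
        · exact absurd (Submodule.span_singleton_eq_bot.1 h) hv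
        · exact h
      have hcomm : ∀ x y : F g n, ρ (x * y) = ρ (y * x) := by
        intro x y
        obtain ⟨z, hz⟩ := a3 x trivial
        obtain ⟨z', hz'⟩ := a3 y trivial
        apply LinearMap.ext
        intro u
        have hu : u ∈ U := by rw [hU]; trivial
        obtain ⟨t, rfl⟩ := Submodule.mem_span_singleton.1 hu
        rw [map_smul, map_smul, map_mul, map_mul]
        show t • ρ x (ρ y v) = t • ρ y (ρ x v)
        rw [hz, hz', map_smul, map_smul, hz, hz', smul_smul z' z, smul_smul z z', mul_comm z' z]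
      let M : Subgroup (F g n) := ρ.ker
      have hM : ∀ x, x ∈ M ↔ ρ x = 1 := fun x => MonoidHom.mem_ker
      have hMn : M.Normal := MonoidHom.normal_ker _
      refine ⟨M, ⟨hMn, Or.inr (Or.inl ⟨0, ⊤, by omega, ?_, Cost9.top⟩)⟩, hM⟩
      intro x _
      rw [Subgroup.mem_center_iff]
      intro y
      obtain ⟨x, rfl⟩ := QuotientGroup.mk_surjective x
      obtain ⟨y, rfl⟩ := QuotientGroup.mk_surjective y
      rw [← QuotientGroup.mk_mul, ← QuotientGroup.mk_mul, QuotientGroup.eq, hM, map_mul,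
        hcomm x y, ← map_mul, inv_mul_cancel, map_one]
    · exact ⟨M, ⟨hM, a2⟩, a1⟩

end Pool.Agent.Results.MP_26af1b_gt.Eigenlines
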