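import Pool.Agent.PWR.Opt
import Pool.Agent.PWR.Rec
import Pool.Agent.PWR.Dto
import Pool.Agent.PWR.Dti
import Pool.Agent.PWR.Frm
import Pool.Agent.PWR.Had
import Pool.Agent.PWR.Int
import Pool.Agent.PWR.Psi
import Pool.Agent.PWR.Upp
import Pool.Agent.PWR.Val
import Pool.Agent.PWR.Fnn
import Pool.Agent.PWR.Nnn
import Pool.Agent.PWR.Par
import Pool.Agent.PWR.Cor
import Pool.Agent.PWR.Cnt
import Pool.Agent.PWR.Orb
import Pool.Agent.PWR.Mom
import Pool.Agent.PWR.Sec
import Pool.Agent.PWR.Tra
import Pool.Agent.PWR.Scc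
import Pool.Agent.PWR.Crd
import Pool.Agent.PWR.Crn
import Pool.Agent.PWR.Cri
import Pool.Agent.PWR.Kil
import Pool.Agent.PWR.Cur
import Pool.Agent.PWR.Hom
import Pool.Agent.PWR.Fin

/-!
# MP_26af1b_gt : almost all covers

`F g n` modulo `bdry g n` is the fundamental group of the closed surface of genus `g` without `n`
marked points.  A homomorphism `ρ` from it to the symmetric group of `Fin d` is a cover with `d`
sheets, branched over the marked points.

For `g ≥ 2`, `n ≥ 1` all but a proportion `≤ C (log d) ^ 2 / d` of these homomorphisms are `Fine`: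
the cover is connected, its fundamental group is generated by elements which are freely homotopic to
powers of nonseparating simple closed curves of the base, and every nonzero rational cohomology class
of degree one of the closed cover has an infinite orbit under the mapping class group.  The constant
`C` is absolute.
-/

namespace Pool.Agent.Results.MP_26af1b_gt.RandomCovers

open Equiv Pool.Agent.PW Pool.Agent.PWR

theorem result : ∃ C : ℝ, ∀ g n d : ℕ, 2 ≤ g → 1 ≤ n → 2 ≤ d →
    (Nat.card {ρ : F g n →* Perm (Fin d) // ρ (bdry g n) = 1 ∧ ¬ Fine ρ} : ℝ) ≤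
      C * Real.log d ^ 2 / d * Nat.card {ρ : F g n →* Perm (Fin d) // ρ (bdry g n) = 1} := by
  have hScc : St_Scc := thm_Scc
  have hCri : St_Cri := thm_Cri hScc (thm_Crd hScc) (thm_Crn hScc)
  have hOpt : St_Opt := thm_Opt
  have hRec : St_Rec := thm_Rec hOpt
  have hPsi : St_Psi := thm_Psi
  have hUpp : St_Upp := thm_Upp (thm_Frm hRec thm_Dto thm_Dti) thm_Had thm_Int
  have hVal : St_Val := thm_Val hRec hOpt hUpp hPsi
  have hFnn : St_Fnn := thm_Fnn hOpt hUpp hPsi
  have hNnn : St_Nnn := thm_Nnn hOpt hUpp hPsi hVal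
  have hCor : St_Cor := thm_Cor hPsi hUpp hFnn hNnn thm_Par
  have hSec : St_Sec := thm_Sec hCor (thm_Cnt hOpt) thm_Orb thm_Mom
  exact thm_Fin hSec thm_Tra hCri thm_Kil (thm_Cur hScc) thm_Hom

end Pool.Agent.Results.MP_26af1b_gt.RandomCovers
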