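import Pool.Agent.PWK.SVE
import Pool.Agent.PWK.SCA
import Pool.Agent.PWK.SIM

/-!
# MP_26af1b_gt : one central curve, scalar curves

The Putman-Wieland property for the finite branched covers for which some nonseparating simple
closed curve of the base is central in the deck group of the Galois closure; more generally, if
every irreducible representation of the deck group (with a vector fixed by `K`) maps some
nonseparating simple closed curve to a scalar; and the same for single classes.
-/

set_option autoImplicit false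

namespace Pool.Agent.Results.MP_26af1b_gt.ScalarCurves

open Pool.Agent.PW

variable {g n : ℕ}

/-- every nonzero class of the closed cover of `K` has infinite orbit -/
def PutmanWieland (K : Subgroup (F g n)) : Prop :=
  ∀ f : K → ℚ, IsClass K f → f ≠ 0 → (orbit K f).Infinite

/-- some nonseparating simple closed curve is central in the deck group of the Galois closure -/
def HasCentralCurve (hg : 0 < g) (K : Subgroup (F g n)) : Prop :=
  ∃ θ ∈ MCG g n, ∀ w : F g n,
    θ (ga ⟨0, hg⟩) * w * (θ (ga ⟨0, hg⟩))⁻¹ * w⁻¹ ∈ K.normalCore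

/-- the representation maps some nonseparating simple closed curve to a scalar -/
def HasScalarCurve (hg : 0 < g) {V : Type} [AddCommGroup V] [Module ℂ V]
    (ρ : Representation ℂ (F g n) V) : Prop :=
  ∃ θ ∈ MCG g n, ∃ c : ℂ, ∀ v, ρ (θ (ga ⟨0, hg⟩)) v = c • v

/-- every irreducible complex representation of the deck group of the Galois closure of the cover
which has a nonzero vector fixed by `K` maps some nonseparating simple closed curve to a scalar -/
def EachScalar (hg : 0 < g) (K : Subgroup (F g n)) : Prop :=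
  ∀ (V : Type) [AddCommGroup V] [Module ℂ V] [FiniteDimensional ℂ V]
    (ρ : Representation ℂ (F g n) V), (∀ x ∈ K.normalCore, ρ x = 1) →
    (∀ U : Submodule ℂ V, (∀ w, ∀ v ∈ U, ρ w v ∈ U) → U = ⊥ ∨ U = ⊤) →
    (∃ v : V, v ≠ 0 ∧ ∀ k ∈ K, ρ k v = v) → HasScalarCurve hg ρ

/-- the translate of a function on the normal core of `K` by an element `w`:
`x ↦ h (w⁻¹ * x * w)` -/
def translate (K : Subgroup (F g n)) (w : F g n) (h : K.normalCore → ℂ) : K.normalCore → ℂ :=
  fun x => h ⟨w⁻¹ * x * w, by
    have := K.normalCore_normal.conj_mem x.1 x.2 w⁻¹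
    rwa [inv_inv] at this⟩

/-- the complex span of the translates of the restriction of `f` to the normal core of `K` -/
def spanOf (K : Subgroup (F g n)) (f : K → ℚ) : Submodule ℂ (K.normalCore → ℂ) :=
  Submodule.span ℂ (Set.range fun w : F g n =>
    translate K w fun x => ((f ⟨x, K.normalCore_le x.2⟩ : ℚ) : ℂ))

/-- some nonseparating simple closed curve acts by one scalar on all translates of `v` -/
def ScalarOn (hg : 0 < g) (K : Subgroup (F g n)) (v : K.normalCore → ℂ) : Prop :=
  ∃ θ ∈ MCG g n, ∃ c : ℂ, ∀ (w : F g n) (x : K.normalCore),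
    translate K (θ (ga ⟨0, hg⟩)) (translate K w v) x = c * translate K w v x

/-- some nonseparating simple closed curve acts by one scalar on all translates of some nonzero
element of the span of the translates of `f` -/
def HasScalarPart (hg : 0 < g) (K : Subgroup (F g n)) (f : K → ℚ) : Prop :=
  ∃ v ∈ spanOf K f, (∃ x, v x ≠ 0) ∧ ScalarOn hg K v

/-- a central curve is a scalar in every irreducible representation (Schur) -/
theorem eachScalar_of_central (hg : 0 < g) (K : Subgroup (F g n)) (h : HasCentralCurve hg K) :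
    EachScalar hg K := by
  obtain ⟨θ, hθ, hc⟩ := h
  intro V _ _ _ ρ hN hirr hv
  obtain ⟨v₀, hv₀, -⟩ := hv
  have : Nontrivial V := ⟨⟨v₀, 0, hv₀⟩⟩
  obtain ⟨c, hcc⟩ := Module.End.exists_eigenvalue (ρ (θ (ga ⟨0, hg⟩)) : Module.End ℂ V)
  have hcomm : ∀ w : F g n, ∀ v : V,
      ρ (θ (ga ⟨0, hg⟩)) (ρ w v) = ρ w (ρ (θ (ga ⟨0, hg⟩)) v) := by
    intro w v
    have h1 := hN _ (hc w)
    have h2 : θ (ga ⟨0, hg⟩) * w =
        (θ (ga ⟨0, hg⟩) * w * (θ (ga ⟨0, hg⟩))⁻¹ * w⁻¹) * (w * θ (ga ⟨0, hg⟩)) := by group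
    calc ρ (θ (ga ⟨0, hg⟩)) (ρ w v) = ρ (θ (ga ⟨0, hg⟩) * w) v := by
          rw [map_mul, Module.End.mul_apply]
      _ = ρ w (ρ (θ (ga ⟨0, hg⟩)) v) := by
          rw [h2, map_mul, h1, one_mul, map_mul, Module.End.mul_apply]
  rcases hirr (Module.End.eigenspace (ρ (θ (ga ⟨0, hg⟩))) c) (by
    intro w v hvm
    rw [Module.End.mem_eigenspace_iff] at hvm ⊢
    rw [hcomm, hvm, map_smul]) with h0 | h1
  · exact absurd h0 hcc
  · refine ⟨θ, hθ, c, fun v => ?_⟩
    have : v ∈ Module.End.eigenspace (ρ (θ (ga ⟨0, hg⟩))) c := by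
      rw [h1]
      exact Submodule.mem_top
    exact Module.End.mem_eigenspace_iff.1 this

theorem result (g n : ℕ) (hg : 0 < g) (K : Subgroup (F g n)) [K.FiniteIndex]
    (hR : bdry g n ∈ K.normalCore) :
    (HasCentralCurve hg K ∨ EachScalar hg K → PutmanWieland K) ∧
    (∀ f : K → ℚ, IsClass K f → HasScalarPart hg K f → (orbit K f).Infinite) := by
  refine ⟨fun h f hf h0 => ?_, fun f hf h => ?_⟩
  · have h' : EachScalar hg K := h.elim (eachScalar_of_central hg K) id
    exact Pool.Agent.PWK.one_scalar_of Pool.Agent.PWK.killed_fine Pool.Agent.PWK.thm_EXT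
      Pool.Agent.PWK.thm_CEN Pool.Agent.PWK.thm_COM Pool.Agent.PWK.thm_SIM
      Pool.Agent.PWK.thm_ORB g n hg K hR h' f hf h0
  · obtain ⟨v, hv, ⟨x, hx⟩, θ, hθ, c, hc⟩ := h
    refine Pool.Agent.PWK.scalar_vector g n hg K hR f hf v hv ?_ θ hθ c ?_
    · rintro rfl
      exact hx rfl
    · intro w
      funext y
      exact hc w y

end Pool.Agent.Results.MP_26af1b_gt.ScalarCurves
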