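import Pool.Agent.PSB.Thm

/-!
# MP_26af1b_gt : finite covers with a simple branch point

A finite branched cover of a surface of genus `g` with a simple branch point `j`: the rational
cohomology classes of degree one with finite orbit under the mapping class group are the
restrictions of the classes with finite orbit of the largest intermediate cover which is not
branched over `j`.  If this cover is the base, all nonzero classes have infinite orbit.
-/

namespace Pool.Agent.Results.MP_26af1b_gt.SimpleBranch

open Pool.Agent.PW Pool.Agent.PSB

theorem result (g n : ℕ) (j : Fin n) (K : Subgroup (F g n)) [K.FiniteIndex]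
    (hR : bdry g n ∈ K.normalCore) (hs : Simple K (gc j)) :
    (∀ f : K → ℚ, IsClass K f →
      ((orbitH (PushAt j) K f).Finite ↔ ∃ f', Comes K (Big K j) f f') ∧
      ((orbit K f).Finite ↔ ∃ f', Comes K (Big K j) f f' ∧ (orbit (Big K j) f').Finite)) ∧
    (Big K j = ⊤ ∨ SimplyBranched K ∧ Surj K ∨
      9 ≤ g ∧ derivedSeries (Deck (Big K j)) 2 = ⊥ → PutmanWieland K) :=
  thm_main g n j K hR hs

end Pool.Agent.Results.MP_26af1b_gt.SimpleBranch
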